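import Pool.Agent.H45.Nev.Plane0

open MeasureTheory Set Metric Filter Topology
open scoped ContDiff Convolution

namespace Pool.Agent.H59.Nev
open Pool.Agent.H45.Nev (lap)

lemma two_le : (2 : WithTop ℕ∞) ≤ ∞ := by
  exact WithTop.coe_le_coe.mpr le_top

lemma lap_eq {f : ℂ → ℝ} (hf : ContDiff ℝ 2 f) (z : ℂ) :
    lap f z = fderiv ℝ (fun y => fderiv ℝ f y 1) z 1 +
      fderiv ℝ (fun y => fderiv ℝ f y Complex.I) z Complex.I := by
  have hd : DifferentiableAt ℝ (fderiv ℝ f) z :=
    ((hf.fderiv_right (m := 1) (by norm_num)).differentiable (by norm_num)) z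
  have key : ∀ e : ℂ, fderiv ℝ (fun y => fderiv ℝ f y e) z e = fderiv ℝ (fderiv ℝ f) z e e := by
    intro e
    have h := (hd.hasFDerivAt).clm_apply (hasFDerivAt_const e z)
    rw [h.fderiv]
    simp
  rw [key, key]
  rfl

lemma contDiff_fderiv_apply {f : ℂ → ℝ} (hf : ContDiff ℝ ∞ f) (e : ℂ) :
    ContDiff ℝ ∞ (fun y => fderiv ℝ f y e) :=
  (hf.fderiv_right (m := ∞) (by simp)).clm_apply contDiff_const

lemma lap_continuous {f : ℂ → ℝ} (hf : ContDiff ℝ ∞ f) : Continuous (lap f) := by
  have h : lap f = fun z => fderiv ℝ (fun y => fderiv ℝ f y 1) z 1 +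
      fderiv ℝ (fun y => fderiv ℝ f y Complex.I) z Complex.I := by
    funext z
    exact lap_eq (hf.of_le two_le) z
  rw [h]
  exact ((contDiff_fderiv_apply (contDiff_fderiv_apply hf 1) 1).continuous).add
    ((contDiff_fderiv_apply (contDiff_fderiv_apply hf Complex.I) Complex.I).continuous)

lemma fderiv_apply_hcs {f : ℂ → ℝ} (hf : HasCompactSupport f) (e : ℂ) :
    HasCompactSupport (fun y => fderiv ℝ f y e) :=
  (hf.fderiv (𝕜 := ℝ)).comp_left (g := fun L : ℂ →L[ℝ] ℝ => L e) rfl

lemma lap_hcs {f : ℂ → ℝ} (hf : ContDiff ℝ ∞ f) (hc : HasCompactSupport f) :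
    HasCompactSupport (lap f) := by
  have h : lap f = fun z => fderiv ℝ (fun y => fderiv ℝ f y 1) z 1 +
      fderiv ℝ (fun y => fderiv ℝ f y Complex.I) z Complex.I := by
    funext z
    exact lap_eq (hf.of_le two_le) z
  rw [h]
  exact (fderiv_apply_hcs (fderiv_apply_hcs hc 1) 1).add
    (fderiv_apply_hcs (fderiv_apply_hcs hc Complex.I) Complex.I)

/-- Laplacian of a convolution -/
lemma fderiv_conv {M η : ℂ → ℝ} (hM : LocallyIntegrable M) (hη : ContDiff ℝ ∞ η)
    (hc : HasCompactSupport η) (e x : ℂ) :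
    fderiv ℝ (M ⋆[ContinuousLinearMap.lsmul ℝ ℝ, volume] η) x e =
      (M ⋆[ContinuousLinearMap.lsmul ℝ ℝ, volume] (fun a => fderiv ℝ η a e)) x := by
  rw [(hc.hasFDerivAt_convolution_right (ContinuousLinearMap.lsmul ℝ ℝ) hM
    (hη.of_le (by exact_mod_cast le_top)) x).fderiv]
  exact convolution_precompR_apply (ContinuousLinearMap.lsmul ℝ ℝ) hM (hc.fderiv ℝ)
    (hη.continuous_fderiv (by simp)) x e

lemma conv_contDiff {M η : ℂ → ℝ} (hM : LocallyIntegrable M) (hη : ContDiff ℝ ∞ η)
    (hc : HasCompactSupport η) :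
    ContDiff ℝ ∞ (M ⋆[ContinuousLinearMap.lsmul ℝ ℝ, volume] η) :=
  hc.contDiff_convolution_right _ hM hη

lemma lap_conv {M η : ℂ → ℝ} (hM : LocallyIntegrable M) (hη : ContDiff ℝ ∞ η)
    (hc : HasCompactSupport η) (x : ℂ) :
    lap (M ⋆[ContinuousLinearMap.lsmul ℝ ℝ, volume] η) x =
      (M ⋆[ContinuousLinearMap.lsmul ℝ ℝ, volume] (lap η)) x := by
  rw [lap_eq ((conv_contDiff hM hη hc).of_le two_le)]
  have h1 : ∀ e : ℂ, (fun y => fderiv ℝ (M ⋆[ContinuousLinearMap.lsmul ℝ ℝ, volume] η) y e) =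
      (M ⋆[ContinuousLinearMap.lsmul ℝ ℝ, volume] (fun a => fderiv ℝ η a e)) := by
    intro e
    funext y
    exact fderiv_conv hM hη hc e y
  rw [h1, h1, fderiv_conv hM (contDiff_fderiv_apply hη _) (fderiv_apply_hcs hc _),
    fderiv_conv hM (contDiff_fderiv_apply hη _) (fderiv_apply_hcs hc _)]
  have h2 : lap η = (fun a => fderiv ℝ (fun y => fderiv ℝ η y 1) a 1) +
      (fun a => fderiv ℝ (fun y => fderiv ℝ η y Complex.I) a Complex.I) := by
    funext z
    exact lap_eq (hη.of_le two_le) z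
  rw [h2]
  have e1 : ConvolutionExistsAt M (fun a => fderiv ℝ (fun y => fderiv ℝ η y 1) a 1) x
      (ContinuousLinearMap.lsmul ℝ ℝ) volume :=
    (fderiv_apply_hcs (fderiv_apply_hcs hc 1) 1).convolutionExists_right _ hM
      (contDiff_fderiv_apply (contDiff_fderiv_apply hη 1) 1).continuous x
  have e2 : ConvolutionExistsAt M
      (fun a => fderiv ℝ (fun y => fderiv ℝ η y Complex.I) a Complex.I) x
      (ContinuousLinearMap.lsmul ℝ ℝ) volume :=
    (fderiv_apply_hcs (fderiv_apply_hcs hc _) _).convolutionExists_right _ hM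
      (contDiff_fderiv_apply (contDiff_fderiv_apply hη _) _).continuous x
  exact (e1.distrib_add e2).symm

/-- Laplacian of a reflected translate -/
lemma lap_reflect {η : ℂ → ℝ} (hη : ContDiff ℝ ∞ η) (x z : ℂ) :
    lap (fun z => η (x - z)) z = lap η (x - z) := by
  have hη' : ContDiff ℝ ∞ (fun z => η (x - z)) := hη.comp (contDiff_const.sub contDiff_id)
  have h1 : ∀ (g : ℂ → ℝ), ContDiff ℝ ∞ g → ∀ (e z : ℂ),
      fderiv ℝ (fun z => g (x - z)) z e = - fderiv ℝ g (x - z) e := by
    intro g hg e z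
    have hd : HasFDerivAt g (fderiv ℝ g (x - z)) (x - z) :=
      ((hg.differentiable (by simp)) (x - z)).hasFDerivAt
    have h := hd.comp z ((hasFDerivAt_const x z).sub (hasFDerivAt_id z))
    have h' : fderiv ℝ (fun z => g (x - z)) z = _ := h.fderiv
    rw [h']
    simp
  rw [lap_eq (hη'.of_le two_le), lap_eq (hη.of_le two_le)]
  have h2 : ∀ e : ℂ, fderiv ℝ (fun y => fderiv ℝ (fun z => η (x - z)) y e) z e =
      fderiv ℝ (fun y => fderiv ℝ η y e) (x - z) e := by
    intro e
    have h3 : (fun y => fderiv ℝ (fun z => η (x - z)) y e) =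
        fun y => (fun u => - fderiv ℝ η u e) (x - y) := by
      funext y
      exact h1 η hη e y
    rw [h3, h1 _ (contDiff_fderiv_apply hη e).neg e z]
    simp [fderiv_fun_neg]
  rw [h2, h2]

/-- integration by parts -/
lemma parts_one {F v : ℂ → ℝ} (hF : ContDiff ℝ ∞ F) (hv : ContDiff ℝ ∞ v)
    (hc : HasCompactSupport v) (e : ℂ) :
    ∫ z, F z * fderiv ℝ v z e = - ∫ z, fderiv ℝ F z e * v z := by
  apply integral_mul_fderiv_eq_neg_fderiv_mul_of_integrable
  · exact ((contDiff_fderiv_apply hF e).continuous.mul hv.continuous).integrable_of_hasCompactSupport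
      (hc.mul_left)
  · exact (hF.continuous.mul (contDiff_fderiv_apply hv e).continuous).integrable_of_hasCompactSupport
      ((fderiv_apply_hcs hc e).mul_left)
  · exact (hF.continuous.mul hv.continuous).integrable_of_hasCompactSupport (hc.mul_left)
  · intro x _; exact (hF.differentiable (by simp)) x
  · intro x _; exact (hv.differentiable (by simp)) x

lemma parts {F v : ℂ → ℝ} (hF : ContDiff ℝ ∞ F) (hv : ContDiff ℝ ∞ v)
    (hc : HasCompactSupport v) :
    ∫ z, F z * lap v z = ∫ z, lap F z * v z := by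
  have key : ∀ e : ℂ, ∫ z, F z * fderiv ℝ (fun y => fderiv ℝ v y e) z e =
      ∫ z, fderiv ℝ (fun y => fderiv ℝ F y e) z e * v z := by
    intro e
    rw [parts_one hF (contDiff_fderiv_apply hv e) (fderiv_apply_hcs hc e) e]
    have h := parts_one (contDiff_fderiv_apply hF e) hv hc e
    rw [← neg_neg (∫ z, fderiv ℝ (fun y => fderiv ℝ F y e) z e * v z), ← h]
  have i1 : ∀ e : ℂ, Integrable (fun z => F z * fderiv ℝ (fun y => fderiv ℝ v y e) z e) := by
    intro e
    exact (hF.continuous.mul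
      (contDiff_fderiv_apply (contDiff_fderiv_apply hv e) e).continuous).integrable_of_hasCompactSupport
      ((fderiv_apply_hcs (fderiv_apply_hcs hc e) e).mul_left)
  have i2 : ∀ e : ℂ, Integrable (fun z => fderiv ℝ (fun y => fderiv ℝ F y e) z e * v z) := by
    intro e
    exact ((contDiff_fderiv_apply (contDiff_fderiv_apply hF e) e).continuous.mul
      hv.continuous).integrable_of_hasCompactSupport (hc.mul_left)
  have hl : ∀ z, F z * lap v z = F z * fderiv ℝ (fun y => fderiv ℝ v y 1) z 1 +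
      F z * fderiv ℝ (fun y => fderiv ℝ v y Complex.I) z Complex.I := by
    intro z
    rw [lap_eq (hv.of_le two_le)]; ring
  have hr : ∀ z, lap F z * v z = fderiv ℝ (fun y => fderiv ℝ F y 1) z 1 * v z +
      fderiv ℝ (fun y => fderiv ℝ F y Complex.I) z Complex.I * v z := by
    intro z
    rw [lap_eq (hF.of_le two_le)]; ring
  simp_rw [hl, hr]
  rw [integral_add (i1 _) (i1 _), integral_add (i2 _) (i2 _), key, key]

/-- regularised absolute value -/
noncomputable def G (δ w : ℝ) : ℝ := Real.sqrt (w ^ 2 + δ ^ 2)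

lemma G_pos {δ : ℝ} (hδ : 0 < δ) (w : ℝ) : 0 < G δ w := Real.sqrt_pos.mpr (by positivity)

lemma G_sq {δ : ℝ} (w : ℝ) : G δ w ^ 2 = w ^ 2 + δ ^ 2 := Real.sq_sqrt (by positivity)

lemma G_hasDerivAt {δ : ℝ} (hδ : 0 < δ) (w : ℝ) : HasDerivAt (G δ) (w / G δ w) w := by
  have h1 : HasDerivAt (fun w : ℝ => w ^ 2 + δ ^ 2) (2 * w) w := by
    simpa using (hasDerivAt_pow 2 w).add_const (δ ^ 2)
  have h2 := h1.sqrt (by positivity)
  have h3 : 2 * w / (2 * √(w ^ 2 + δ ^ 2)) = w / G δ w := by
    have := G_pos hδ w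
    show 2 * w / (2 * G δ w) = w / G δ w
    field_simp
  rw [h3] at h2
  exact h2

lemma G1_hasDerivAt {δ : ℝ} (hδ : 0 < δ) (w : ℝ) :
    HasDerivAt (fun w => w / G δ w) (δ ^ 2 / G δ w ^ 3) w := by
  have hG := G_pos hδ w
  have h := (hasDerivAt_id w).div (G_hasDerivAt hδ w) hG.ne'
  have h2 := G_sq (δ := δ) w
  have h3 : G δ w - w * (w / G δ w) = δ ^ 2 / G δ w := by
    rw [eq_div_iff hG.ne']
    have : w * (w / G δ w) * G δ w = w ^ 2 := by field_simp
    nlinarith
  have h4 : (1 * G δ w - id w * (w / G δ w)) / G δ w ^ 2 = δ ^ 2 / G δ w ^ 3 := by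
    have : (1 * G δ w - id w * (w / G δ w)) = δ ^ 2 / G δ w := by simpa using h3
    rw [this]
    field_simp
  rw [h4] at h
  exact h

lemma G_contDiff {δ : ℝ} (hδ : 0 < δ) : ContDiff ℝ ∞ (G δ) := by
  unfold G
  apply ContDiff.sqrt
  · fun_prop
  · intro x; positivity

lemma lap_G {δ : ℝ} (hδ : 0 < δ) {W : ℂ → ℝ} (hW : ContDiff ℝ ∞ W) (z : ℂ) :
    W z / G δ (W z) * lap W z ≤ lap (fun z => G δ (W z)) z := by
  have hGW : ContDiff ℝ ∞ (fun z => G δ (W z)) := (G_contDiff hδ).comp hW
  have key : ∀ e : ℂ, fderiv ℝ (fun y => fderiv ℝ (fun z => G δ (W z)) y e) z e =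
      W z / G δ (W z) * fderiv ℝ (fun y => fderiv ℝ W y e) z e +
      δ ^ 2 / G δ (W z) ^ 3 * (fderiv ℝ W z e) ^ 2 := by
    intro e
    have hWd : ∀ y, HasFDerivAt W (fderiv ℝ W y) y := fun y =>
      ((hW.differentiable (by simp)) y).hasFDerivAt
    have h1 : (fun y => fderiv ℝ (fun z => G δ (W z)) y e) =
        fun y => W y / G δ (W y) * fderiv ℝ W y e := by
      funext y
      have h := (G_hasDerivAt hδ (W y)).comp_hasFDerivAt y (hWd y)
      have h' : fderiv ℝ (fun z => G δ (W z)) y = _ := h.fderiv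
      rw [h']
      simp
    rw [h1]
    have h2 := (G1_hasDerivAt hδ (W z)).comp_hasFDerivAt z (hWd z)
    have h3 : HasFDerivAt (fun y => fderiv ℝ W y e) (fderiv ℝ (fun y => fderiv ℝ W y e) z) z :=
      (((contDiff_fderiv_apply hW e).differentiable (by simp)) z).hasFDerivAt
    have h4 := h2.mul h3
    have h5 : fderiv ℝ (fun y => W y / G δ (W y) * fderiv ℝ W y e) z = _ := h4.fderiv
    rw [h5]
    simp
    ring
  rw [lap_eq (hGW.of_le two_le), lap_eq (hW.of_le two_le),
    key, key]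
  have hG := G_pos hδ (W z)
  have h1 : 0 ≤ δ ^ 2 / G δ (W z) ^ 3 * (fderiv ℝ W z 1) ^ 2 := by positivity
  have h2 : 0 ≤ δ ^ 2 / G δ (W z) ^ 3 * (fderiv ℝ W z Complex.I) ^ 2 := by positivity
  nlinarith [h1, h2]


/-- the mollifiers -/
noncomputable def bump (n : ℕ) : ContDiffBump (0 : ℂ) where
  rIn := 1 / (2 * ((n : ℝ) + 1))
  rOut := 1 / ((n : ℝ) + 1)
  rIn_pos := by positivity
  rIn_lt_rOut := by
    apply one_div_lt_one_div_of_lt
    · positivity
    · have : (0 : ℝ) ≤ n := Nat.cast_nonneg n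
      linarith

/-- the normalised mollifiers -/
noncomputable def eta (n : ℕ) : ℂ → ℝ := (bump n).normed volume

lemma eta_contDiff (n : ℕ) : ContDiff ℝ ∞ (eta n) := (bump n).contDiff_normed

lemma eta_hcs (n : ℕ) : HasCompactSupport (eta n) := (bump n).hasCompactSupport_normed

lemma eta_nonneg (n : ℕ) (z : ℂ) : 0 ≤ eta n z := (bump n).nonneg_normed z

lemma eta_integral (n : ℕ) : ∫ z, eta n z = 1 := (bump n).integral_normed

lemma eta_support (n : ℕ) : Function.support (eta n) = ball 0 (1 / ((n : ℝ) + 1)) :=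
  (bump n).support_normed_eq

/-- the countable family of test functions -/
def fam : Set (ℂ → ℝ) := {v | ∃ n k : ℕ, ‖TopologicalSpace.denseSeq ℂ k‖ + 1 / ((n : ℝ) + 1) < 1 ∧
  v = fun z => eta n (TopologicalSpace.denseSeq ℂ k - z)}

lemma fam_countable : fam.Countable := by
  apply Set.Countable.mono (s₂ := Set.range
    (fun p : ℕ × ℕ => fun z => eta p.1 (TopologicalSpace.denseSeq ℂ p.2 - z)))
  · rintro v ⟨n, k, -, rfl⟩
    exact ⟨(n, k), rfl⟩
  · exact countable_range _

lemma tsupport_translate (n : ℕ) (x : ℂ) :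
    tsupport (fun z => eta n (x - z)) ⊆ closedBall x (1 / ((n : ℝ) + 1)) := by
  apply closure_minimal _ isClosed_closedBall
  intro z hz
  have : x - z ∈ Function.support (eta n) := hz
  rw [eta_support, mem_ball_zero_iff] at this
  rw [mem_closedBall, dist_comm, dist_eq_norm]
  exact this.le

lemma fam_props {v : ℂ → ℝ} (hv : v ∈ fam) :
    ContDiff ℝ ∞ v ∧ HasCompactSupport v ∧ tsupport v ⊆ ball 0 1 := by
  obtain ⟨n, k, h, rfl⟩ := hv
  have hs := tsupport_translate n (TopologicalSpace.denseSeq ℂ k)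
  refine ⟨(eta_contDiff n).comp (contDiff_const.sub contDiff_id), ?_, ?_⟩
  · exact HasCompactSupport.of_support_subset_isCompact
      (isCompact_closedBall (TopologicalSpace.denseSeq ℂ k) (1 / ((n : ℝ) + 1)))
      (subset_closure.trans hs)
  · intro z hz
    have h1 := hs hz
    rw [mem_closedBall, dist_eq_norm] at h1
    rw [mem_ball_zero_iff]
    calc ‖z‖ = ‖(z - TopologicalSpace.denseSeq ℂ k) + TopologicalSpace.denseSeq ℂ k‖ := by
          rw [sub_add_cancel]
      _ ≤ _ := norm_add_le _ _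
      _ < 1 := by linarith

/-- bound for convolution with the mollifier -/
lemma conv_bound {M : ℂ → ℝ} {C : ℝ} (n : ℕ) (z : ℂ)
    (h : ∀ t, ‖t - z‖ < 1 / ((n : ℝ) + 1) → |M t| ≤ C) :
    |(M ⋆[ContinuousLinearMap.lsmul ℝ ℝ, volume] (eta n)) z| ≤ C := by
  rw [convolution_def]
  have hi : Integrable (fun t => C * eta n (z - t)) := by
    apply Integrable.const_mul
    exact (((eta_contDiff n).continuous.integrable_of_hasCompactSupport (eta_hcs n))).comp_sub_left z
  calc |∫ t, (ContinuousLinearMap.lsmul ℝ ℝ (M t)) (eta n (z - t))|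
      ≤ ∫ t, C * eta n (z - t) := by
        rw [← Real.norm_eq_abs]
        apply norm_integral_le_of_norm_le hi
        refine Filter.Eventually.of_forall fun t => ?_
        simp only [ContinuousLinearMap.lsmul_apply, smul_eq_mul, norm_mul, Real.norm_eq_abs]
        rw [abs_of_nonneg (eta_nonneg n _)]
        by_cases ht : z - t ∈ Function.support (eta n)
        · rw [eta_support, mem_ball_zero_iff] at ht
          have := h t (by rw [norm_sub_rev]; exact ht)
          exact mul_le_mul_of_nonneg_right this (eta_nonneg n _)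
        · have h0 : eta n (z - t) = 0 := by simpa using ht
          simp [h0]
    _ = C := by
        rw [integral_const_mul, integral_sub_left_eq_self (eta n) volume z, eta_integral, mul_one]

lemma conv_tendsto {M : ℂ → ℝ} (hM : LocallyIntegrable M) :
    ∀ᵐ z, Tendsto (fun n => (M ⋆[ContinuousLinearMap.lsmul ℝ ℝ, volume] (eta n)) z) atTop
      (𝓝 (M z)) := by
  have h := ContDiffBump.ae_convolution_tendsto_right_of_locallyIntegrable (φ := bump)
    (l := atTop) (K := 2) (μ := volume) (g := M) ?_ ?_ hM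
  · filter_upwards [h] with z hz
    refine hz.congr fun n => ?_
    rw [convolution_eq_swap, convolution_def]
    apply integral_congr_ae
    refine Filter.Eventually.of_forall fun t => ?_
    simp [eta, mul_comm]
  · exact tendsto_one_div_add_atTop_nhds_zero_nat
  · refine Filter.Eventually.of_forall fun n => ?_
    show (1 : ℝ) / ((n : ℝ) + 1) ≤ 2 * (1 / (2 * ((n : ℝ) + 1)))
    apply le_of_eq
    field_simp


lemma lap_eq_zero {v : ℂ → ℝ} {z : ℂ} (hz : z ∉ tsupport v) : lap v z = 0 := by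
  have h0 : v =ᶠ[𝓝 z] fun _ => (0 : ℝ) := by
    filter_upwards [(isClosed_tsupport v).isOpen_compl.mem_nhds hz] with y hy
    exact image_eq_zero_of_notMem_tsupport hy
  have h1 : fderiv ℝ v =ᶠ[𝓝 z] fderiv ℝ (fun _ : ℂ => (0 : ℝ)) := h0.fderiv
  have h2 : fderiv ℝ (fderiv ℝ v) z = fderiv ℝ (fderiv ℝ (fun _ : ℂ => (0 : ℝ))) z :=
    h1.fderiv_eq
  unfold Pool.Agent.H45.Nev.lap
  rw [h2]
  simp

lemma G_le {δ : ℝ} (hδ : 0 < δ) (w : ℝ) : G δ w ≤ |w| + δ := by
  unfold G
  rw [Real.sqrt_le_left (by positivity)]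
  nlinarith [sq_abs w, mul_nonneg (abs_nonneg w) hδ.le]

lemma abs_div_G_le {δ : ℝ} (hδ : 0 < δ) (w : ℝ) : |w / G δ w| ≤ 1 := by
  rw [abs_div, abs_of_pos (G_pos hδ w), div_le_one (G_pos hδ w)]
  unfold G
  apply Real.le_sqrt_of_sq_le
  rw [sq_abs]
  nlinarith [sq_nonneg δ]

lemma G_tendsto {δ a : ℕ → ℝ} {a₀ : ℝ} (hδ : Tendsto δ atTop (𝓝 0))
    (ha : Tendsto a atTop (𝓝 a₀)) : Tendsto (fun n => G (δ n) (a n)) atTop (𝓝 |a₀|) := by
  unfold G
  have h : Tendsto (fun n => a n ^ 2 + δ n ^ 2) atTop (𝓝 (a₀ ^ 2 + 0 ^ 2)) :=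
    (ha.pow 2).add (hδ.pow 2)
  have h2 := h.sqrt
  have h3 : √(a₀ ^ 2 + 0 ^ 2) = |a₀| := by
    rw [← Real.sqrt_sq_eq_abs]; simp
  rw [h3] at h2
  exact h2

lemma ratio_tendsto {δ a b : ℕ → ℝ} {a₀ c : ℝ} (hδ : Tendsto δ atTop (𝓝 0))
    (hδ0 : ∀ n, 0 < δ n)
    (ha : Tendsto a atTop (𝓝 a₀)) (hb : Tendsto b atTop (𝓝 (a₀ * c))) :
    Tendsto (fun n => a n / G (δ n) (a n) * b n) atTop (𝓝 (|a₀| * c)) := by
  by_cases h0 : a₀ = 0
  · subst h0
    simp only [zero_mul, abs_zero] at hb ⊢
    rw [tendsto_zero_iff_abs_tendsto_zero] at hb ⊢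
    refine squeeze_zero (fun n => abs_nonneg _) (fun n => ?_) hb
    show |a n / G (δ n) (a n) * b n| ≤ |b n|
    rw [abs_mul]
    exact mul_le_of_le_one_left (abs_nonneg _) (abs_div_G_le (hδ0 n) _)
  · have h1 := (ha.div (G_tendsto hδ ha) (abs_ne_zero.mpr h0)).mul hb
    have h2 : a₀ / |a₀| * (a₀ * c) = |a₀| * c := by
      have h3 : |a₀| ≠ 0 := abs_ne_zero.mpr h0
      field_simp
      rw [sq_abs]
    rw [h2] at h1
    exact h1

/-- C. Kato's inequality, tested on a countable family. -/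
theorem kato : ∃ V : Set (ℂ → ℝ), V.Countable ∧
    (∀ v ∈ V, ContDiff ℝ ∞ v ∧ HasCompactSupport v ∧ tsupport v ⊆ ball 0 1) ∧
    ∀ (m ρ : ℂ → ℝ) (lam C₀ : ℝ), Measurable m → Measurable ρ → 0 ≤ lam →
      IntegrableOn m (ball 0 1) →
      (∀ r < 1, ∃ C, ∀ z ∈ ball (0 : ℂ) r, |m z| ≤ C) →
      (∀ z ∈ ball (0 : ℂ) 1, 0 ≤ ρ z ∧ ρ z ≤ C₀) →
      (∀ v ∈ V, ∫ z in ball (0 : ℂ) 1, m z * (lam * ρ z * v z - lap v z) = 0) →
      ∀ v : ℂ → ℝ, ContDiff ℝ ∞ v → HasCompactSupport v → tsupport v ⊆ ball 0 1 →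
        (∀ z, 0 ≤ v z) →
        lam * ∫ z in ball (0 : ℂ) 1, |m z| * (ρ z * v z) ≤
          ∫ z in ball (0 : ℂ) 1, |m z| * lap v z := by
  refine ⟨fam, fam_countable, fun v hv => fam_props hv, ?_⟩
  intro m ρ lam C₀ hm hρ hlam hmi hloc hρb hfam v hv hvc hvs hv0
  set M : ℂ → ℝ := (ball (0 : ℂ) 1).indicator m with hMdef
  set R : ℂ → ℝ := (ball (0 : ℂ) 1).indicator (fun z => m z * ρ z) with hRdef
  have hMi : Integrable M := (integrable_indicator_iff measurableSet_ball).mpr hmi
  have hRon : IntegrableOn (fun z => m z * ρ z) (ball 0 1) := by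
    have h1 : IntegrableOn (fun z => m z * C₀) (ball 0 1) := hmi.mul_const C₀
    refine Integrable.mono h1 ((hm.mul hρ).aestronglyMeasurable) ?_
    rw [ae_restrict_iff' measurableSet_ball]
    refine Filter.Eventually.of_forall fun z hz => ?_
    obtain ⟨h2, h3⟩ := hρb z hz
    simp only [norm_mul, Real.norm_eq_abs]
    apply mul_le_mul_of_nonneg_left _ (abs_nonneg _)
    rw [abs_of_nonneg h2, abs_of_nonneg (h2.trans h3)]
    exact h3
  have hRi : Integrable R := (integrable_indicator_iff measurableSet_ball).mpr hRon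
  have hMl : LocallyIntegrable M := hMi.locallyIntegrable
  have hRl : LocallyIntegrable R := hRi.locallyIntegrable
  -- the equation for the mollified function
  have hE : ∀ n : ℕ, ∀ x : ℂ, ‖x‖ + 1 / ((n : ℝ) + 1) < 1 →
      lap (M ⋆[ContinuousLinearMap.lsmul ℝ ℝ, volume] (eta n)) x =
        lam * (R ⋆[ContinuousLinearMap.lsmul ℝ ℝ, volume] (eta n)) x := by
    intro n x hx
    rw [lap_conv hMl (eta_contDiff n) (eta_hcs n)]
    have hcont1 : Continuous (M ⋆[ContinuousLinearMap.lsmul ℝ ℝ, volume] (lap (eta n))) :=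
      (lap_hcs (eta_contDiff n) (eta_hcs n)).continuous_convolution_right _ hMl
        (lap_continuous (eta_contDiff n))
    have hcont2 : Continuous
        (fun x => lam * (R ⋆[ContinuousLinearMap.lsmul ℝ ℝ, volume] (eta n)) x) :=
      continuous_const.mul ((eta_hcs n).continuous_convolution_right _ hRl
        (eta_contDiff n).continuous)
    set U : Set ℂ := {x | ‖x‖ + 1 / ((n : ℝ) + 1) < 1} with hU
    have hUo : IsOpen U := isOpen_lt (continuous_norm.add continuous_const) continuous_const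
    have hd : Dense (Set.range (TopologicalSpace.denseSeq ℂ)) :=
      TopologicalSpace.denseRange_denseSeq ℂ
    have hsub := hd.open_subset_closure_inter hUo hx
    have hclosed : IsClosed {x | (M ⋆[ContinuousLinearMap.lsmul ℝ ℝ, volume] (lap (eta n))) x =
        lam * (R ⋆[ContinuousLinearMap.lsmul ℝ ℝ, volume] (eta n)) x} :=
      isClosed_eq hcont1 hcont2
    apply closure_minimal _ hclosed hsub
    rintro y ⟨hyU, k, rfl⟩
    set y := TopologicalSpace.denseSeq ℂ k with hy
    have hv1 := hfam (fun z => eta n (y - z)) ⟨n, k, hyU, rfl⟩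
    rw [← integral_indicator measurableSet_ball] at hv1
    have hpt : (fun z => (ball (0 : ℂ) 1).indicator (fun z => m z * (lam * ρ z * eta n (y - z) -
        lap (fun z => eta n (y - z)) z)) z) =
        fun z => lam * (R z * eta n (y - z)) - M z * lap (eta n) (y - z) := by
      funext z
      rw [hRdef, hMdef]
      by_cases hz : z ∈ ball (0 : ℂ) 1
      · simp only [indicator_of_mem hz]
        rw [lap_reflect (eta_contDiff n)]
        ring
      · simp only [indicator_of_notMem hz]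
        ring
    rw [hpt] at hv1
    have i1 : Integrable (fun z => R z * eta n (y - z)) := by
      have := (eta_hcs n).convolutionExists_right (ContinuousLinearMap.lsmul ℝ ℝ) hRl
        (eta_contDiff n).continuous y
      exact this
    have i2 : Integrable (fun z => M z * lap (eta n) (y - z)) := by
      have := (lap_hcs (eta_contDiff n) (eta_hcs n)).convolutionExists_right
        (ContinuousLinearMap.lsmul ℝ ℝ) hMl
        (lap_continuous (eta_contDiff n)) y
      exact this
    rw [integral_sub (i1.const_mul lam) i2, integral_const_mul] at hv1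
    show (M ⋆[ContinuousLinearMap.lsmul ℝ ℝ, volume] (lap (eta n))) y =
        lam * (R ⋆[ContinuousLinearMap.lsmul ℝ ℝ, volume] (eta n)) y
    rw [convolution_def, convolution_def]
    simp only [ContinuousLinearMap.lsmul_apply, smul_eq_mul]
    linarith
  -- radii
  obtain ⟨r, ⟨hr0, hr1⟩, hvr⟩ := exists_pos_lt_subset_ball one_pos (isClosed_tsupport v) hvs
  obtain ⟨C, hC⟩ := hloc ((1 + r) / 2) (by linarith)
  obtain ⟨N, hN⟩ := exists_nat_one_div_lt (show (0 : ℝ) < (1 - r) / 2 by linarith)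
  have hC0 : 0 ≤ C := le_trans (abs_nonneg _) (hC 0 (by rw [mem_ball_zero_iff, norm_zero]; linarith))
  have hNn : ∀ n : ℕ, N ≤ n → 1 / ((n : ℝ) + 1) < (1 - r) / 2 := fun n hn =>
    lt_of_le_of_lt (one_div_le_one_div_of_le (by positivity)
      (by have : (N : ℝ) ≤ n := by exact_mod_cast hn
          linarith)) hN
  have hC00 : 0 ≤ C₀ := by
    obtain ⟨h1, h2⟩ := hρb 0 (by simp)
    linarith
  have hMb : ∀ z, ‖z‖ < (1 + r) / 2 → |M z| ≤ C := by
    intro z hz
    rw [hMdef, indicator_of_mem (by rw [mem_ball_zero_iff]; linarith)]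
    exact hC z (by rw [mem_ball_zero_iff]; exact hz)
  have hRb : ∀ z, ‖z‖ < (1 + r) / 2 → |R z| ≤ C * C₀ := by
    intro z hz
    have hz1 : z ∈ ball (0 : ℂ) 1 := by rw [mem_ball_zero_iff]; linarith
    rw [hRdef, indicator_of_mem hz1, abs_mul]
    obtain ⟨h1, h2⟩ := hρb z hz1
    apply mul_le_mul (hC z (by rw [mem_ball_zero_iff]; exact hz)) _ (abs_nonneg _) hC0
    rw [abs_of_nonneg h1]
    exact h2
  set W : ℕ → ℂ → ℝ := fun n => (M ⋆[ContinuousLinearMap.lsmul ℝ ℝ, volume] (eta n)) with hW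
  set S : ℕ → ℂ → ℝ := fun n => (R ⋆[ContinuousLinearMap.lsmul ℝ ℝ, volume] (eta n)) with hS
  set δ : ℕ → ℝ := fun n => 1 / ((n : ℝ) + 1) with hδ
  have hδ0 : ∀ n, 0 < δ n := fun n => by rw [hδ]; positivity
  have hδt : Tendsto δ atTop (𝓝 0) := tendsto_one_div_add_atTop_nhds_zero_nat
  have hδ1 : ∀ n, δ n ≤ 1 := by
    intro n
    rw [hδ]
    show 1 / ((n : ℝ) + 1) ≤ 1
    rw [div_le_one (by positivity)]
    have : (0 : ℝ) ≤ n := Nat.cast_nonneg n
    linarith
  have hWc : ∀ n, ContDiff ℝ ∞ (W n) := fun n => conv_contDiff hMl (eta_contDiff n) (eta_hcs n)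
  have hSc : ∀ n, ContDiff ℝ ∞ (S n) := fun n => conv_contDiff hRl (eta_contDiff n) (eta_hcs n)
  have hWb : ∀ n, N ≤ n → ∀ z, ‖z‖ < r → |W n z| ≤ C := by
    intro n hn z hz
    apply conv_bound
    intro t ht
    apply hMb
    have := hNn n hn
    calc ‖t‖ = ‖(t - z) + z‖ := by rw [sub_add_cancel]
      _ ≤ ‖t - z‖ + ‖z‖ := norm_add_le _ _
      _ < _ := by linarith
  have hSb : ∀ n, N ≤ n → ∀ z, ‖z‖ < r → |S n z| ≤ C * C₀ := by
    intro n hn z hz
    apply conv_bound
    intro t ht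
    apply hRb
    have := hNn n hn
    calc ‖t‖ = ‖(t - z) + z‖ := by rw [sub_add_cancel]
      _ ≤ ‖t - z‖ + ‖z‖ := norm_add_le _ _
      _ < _ := by linarith
  have hvz : ∀ z, ¬ ‖z‖ < r → v z = 0 ∧ lap v z = 0 := by
    intro z hz
    have hz' : z ∉ tsupport v := fun h => hz (by
      have := hvr h
      rwa [mem_ball_zero_iff] at this)
    exact ⟨image_eq_zero_of_notMem_tsupport hz', lap_eq_zero hz'⟩
  have hGcont : ∀ n, Continuous (fun z => G (δ n) (W n z)) := fun n =>
    ((G_contDiff (hδ0 n)).continuous).comp (hWc n).continuous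
  have hratcont : ∀ n, Continuous (fun z => W n z / G (δ n) (W n z)) := fun n =>
    (hWc n).continuous.div (hGcont n) (fun z => (G_pos (hδ0 n) _).ne')
  -- inequality at level n
  have hineq : ∀ n, N ≤ n → lam * ∫ z, (W n z / G (δ n) (W n z) * S n z) * v z ≤
      ∫ z, G (δ n) (W n z) * lap v z := by
    intro n hn
    have hp : ∫ z, G (δ n) (W n z) * lap v z = ∫ z, lap (fun z => G (δ n) (W n z)) z * v z :=
      parts (F := fun z => G (δ n) (W n z)) ((G_contDiff (hδ0 n)).comp (hWc n)) hv hvc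
    rw [hp, ← integral_const_mul]
    apply integral_mono
    · apply Continuous.integrable_of_hasCompactSupport
      · exact continuous_const.mul (((hratcont n).mul (hSc n).continuous).mul hv.continuous)
      · exact (hvc.mul_left).mul_left
    · apply Continuous.integrable_of_hasCompactSupport
      · exact (lap_continuous ((G_contDiff (hδ0 n)).comp (hWc n))).mul hv.continuous
      · exact hvc.mul_left
    · intro z
      show lam * ((W n z / G (δ n) (W n z) * S n z) * v z) ≤
        lap (fun z => G (δ n) (W n z)) z * v z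
      by_cases hz : ‖z‖ < r
      · have h1 := lap_G (hδ0 n) (hWc n) z
        have h2 : lap (W n) z = lam * S n z := by
          apply hE
          have := hNn n hn
          linarith
        rw [h2] at h1
        calc lam * ((W n z / G (δ n) (W n z) * S n z) * v z)
            = (W n z / G (δ n) (W n z) * (lam * S n z)) * v z := by ring
          _ ≤ _ := mul_le_mul_of_nonneg_right h1 (hv0 z)
      · rw [(hvz z hz).1]
        simp
  -- limits
  have hlim1 : Tendsto (fun n => ∫ z, G (δ n) (W n z) * lap v z) atTop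
      (𝓝 (∫ z, |M z| * lap v z)) := by
    apply tendsto_integral_filter_of_dominated_convergence (fun z => (C + 1) * |lap v z|)
    · exact Filter.Eventually.of_forall fun n =>
        ((hGcont n).mul (lap_continuous hv)).aestronglyMeasurable
    · filter_upwards [eventually_ge_atTop N] with n hn
      refine Filter.Eventually.of_forall fun z => ?_
      rw [norm_mul, Real.norm_eq_abs, Real.norm_eq_abs]
      by_cases hz : ‖z‖ < r
      · apply mul_le_mul_of_nonneg_right _ (abs_nonneg _)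
        rw [abs_of_pos (G_pos (hδ0 n) _)]
        calc G (δ n) (W n z) ≤ |W n z| + δ n := G_le (hδ0 n) _
          _ ≤ C + 1 := add_le_add (hWb n hn z hz) (hδ1 n)
      · rw [(hvz z hz).2]; simp
    · exact (((lap_continuous hv).integrable_of_hasCompactSupport (lap_hcs hv hvc)).abs).const_mul _
    · filter_upwards [conv_tendsto hMl] with z hz
      exact (G_tendsto hδt hz).mul_const _
  have hlim2 : Tendsto (fun n => ∫ z, (W n z / G (δ n) (W n z) * S n z) * v z) atTop
      (𝓝 (∫ z, (|M z| * ρ z) * v z)) := by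
    apply tendsto_integral_filter_of_dominated_convergence (fun z => (C * C₀) * |v z|)
    · exact Filter.Eventually.of_forall fun n =>
        (((hratcont n).mul (hSc n).continuous).mul hv.continuous).aestronglyMeasurable
    · filter_upwards [eventually_ge_atTop N] with n hn
      refine Filter.Eventually.of_forall fun z => ?_
      rw [norm_mul, norm_mul, Real.norm_eq_abs, Real.norm_eq_abs, Real.norm_eq_abs]
      by_cases hz : ‖z‖ < r
      · apply mul_le_mul_of_nonneg_right _ (abs_nonneg _)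
        calc |W n z / G (δ n) (W n z)| * |S n z| ≤ 1 * (C * C₀) :=
              mul_le_mul (abs_div_G_le (hδ0 n) _) (hSb n hn z hz) (abs_nonneg _) zero_le_one
          _ = C * C₀ := one_mul _
      · rw [(hvz z hz).1]; simp
    · exact ((hv.continuous.integrable_of_hasCompactSupport hvc).abs).const_mul _
    · filter_upwards [conv_tendsto hMl, conv_tendsto hRl] with z hz hz2
      by_cases hz1 : ‖z‖ < r
      · have hzb : z ∈ ball (0 : ℂ) 1 := by rw [mem_ball_zero_iff]; linarith
        have hR' : R z = M z * ρ z := by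
          rw [hRdef, hMdef, indicator_of_mem hzb, indicator_of_mem hzb]
        rw [hR'] at hz2
        exact (ratio_tendsto hδt hδ0 hz hz2).mul_const _
      · rw [(hvz z hz1).1]
        simp
  have hfin := le_of_tendsto_of_tendsto (hlim2.const_mul lam) hlim1
    (by filter_upwards [eventually_ge_atTop N] with n hn using hineq n hn)
  have e1 : ∫ z in ball (0 : ℂ) 1, |m z| * (ρ z * v z) = ∫ z, (|M z| * ρ z) * v z := by
    rw [← integral_indicator measurableSet_ball]
    congr 1
    funext z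
    by_cases hz : z ∈ ball (0 : ℂ) 1
    · rw [indicator_of_mem hz, hMdef, indicator_of_mem hz, mul_assoc]
    · rw [indicator_of_notMem hz, hMdef, indicator_of_notMem hz]; simp
  have e2 : ∫ z in ball (0 : ℂ) 1, |m z| * lap v z = ∫ z, |M z| * lap v z := by
    rw [← integral_indicator measurableSet_ball]
    congr 1
    funext z
    by_cases hz : z ∈ ball (0 : ℂ) 1
    · rw [indicator_of_mem hz, hMdef, indicator_of_mem hz]
    · rw [indicator_of_notMem hz, hMdef, indicator_of_notMem hz]; simp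
  rw [e1, e2]
  exact hfin

end Pool.Agent.H59.Nev
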